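import Pool.Agent.P.MP_2cea5e_gt.AllB

/-!
Long time existence of the Calabi flow on compact toric surfaces.
-/

open scoped ContDiff

namespace Pool.Agent.Results.MP_2cea5e_gt.LongTime

open Pool.Agent.P.MP_2cea5e_gt

theorem result : ∀ (ι : Type) [Finite ι] (m : ι → Matrix (Fin 2) (Fin 2) ℤ)
    (g₀ : ι → (Fin 2 → ℂ) → Matrix (Fin 2) (Fin 2) ℂ) (κ : ℝ),
    IsFanD m → IsToricMetric m g₀ → 0 < κ →
    ∃ g : ℝ → ι → (Fin 2 → ℂ) → Matrix (Fin 2) (Fin 2) ℂ, g 0 = g₀ ∧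
      (∀ t, 0 ≤ t → IsToricMetric m (g t)) ∧
      (∀ σ j k, ContDiffOn ℝ ∞ (fun q : ℝ × (Fin 2 → ℂ) => g q.1 σ q.2 j k)
        (Set.Ici 0 ×ˢ Set.univ)) ∧
      ∀ t, 0 ≤ t → ∀ σ z j k, HasDerivWithinAt (fun s => g s σ z j k)
        ((κ : ℂ) * hess (scalG (g t σ)) z j k) (Set.Ici 0) t :=
  final_all

end Pool.Agent.Results.MP_2cea5e_gt.LongTime
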