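import Pool.Agent.P.MP_2cea5e_gt.AllB
import Pool.Agent.P.MP_2cea5e_gt.Abs.Asm
import Pool.Agent.P.MP_2cea5e_gt.Abs.Tens
import Pool.Agent.P.MP_2cea5e_gt.Abs.Fan
import Pool.Agent.P.MP_2cea5e_gt.Abs.Srf

/-!
Long time existence of the Calabi flow on compact toric surfaces.
-/

open scoped ContDiff

namespace Pool.Agent.Results.MP_2cea5e_gt.LongTimeSurface

open Pool.Agent.P.MP_2cea5e_gt

theorem result : ∀ (M : Type) [TopologicalSpace M] [T2Space M] [CompactSpace M]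
    [ChartedSpace C2 M] [MulAction C2ˣ M] (h₀ : Srf.Met C2 M) (κ : ℝ),
    Srf.IsTorusSurface M → (∃ q : M, ∀ θ : C2ˣ, Srf.InT θ → θ • q = q) →
    Srf.IsInvKaehler h₀ → 0 < κ →
    ∃ h : ℝ → Srf.Met C2 M, h 0 = h₀ ∧ (∀ t, 0 ≤ t → Srf.IsInvKaehler (h t)) ∧
      ∀ e ∈ atlas C2 M,
        (∀ j k, ContDiffOn ℝ ∞ (fun q : ℝ × C2 => (h q.1).comp e q.2 j k)
          (Set.Ici 0 ×ˢ e.target)) ∧
        ∀ t, 0 ≤ t → ∀ z ∈ e.target, ∀ j k,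
          HasDerivWithinAt (fun s => (h s).comp e z j k)
            ((κ : ℂ) * hess (scalG ((h t).comp e)) z j k) (Set.Ici 0) t := by
  intro M _ _ _ _ _ h₀ κ hM hq hK hκ
  have := hM.holo
  have := hM.act
  have := hM.eff
  obtain ⟨h, h0, h1, h2⟩ := Abs.abs_of Abs.tens_ok Abs.fan_ok final_all M h₀ κ hM.dense hq
    ⟨hK.smooth, hK.pos, hK.closed, hK.inv⟩ hκ
  exact ⟨h, h0, fun t ht => ⟨(h1 t ht).smooth, (h1 t ht).pos, (h1 t ht).closed, (h1 t ht).inv⟩, h2⟩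

end Pool.Agent.Results.MP_2cea5e_gt.LongTimeSurface
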