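import Pool.Agent.P.MP_2cea5e_gt.AllA

/-!
A priori `C⁰` bound of the potential along the Calabi flow on a toric surface, finite time.
-/

namespace Pool.Agent.Results.MP_2cea5e_gt.PotentialC0

open Pool.Agent.P.MP_2cea5e_gt

theorem result : ∀ (ι : Type) [Finite ι] (m : ι → Matrix (Fin 2) (Fin 2) ℤ)
    (ψ : ι → (Fin 2 → ℂ) → ℝ) (κ c T : ℝ) (φ : ℝ → ι → (Fin 2 → ℂ) → ℝ),
    IsFan m → IsToricKaehler m ψ → 0 < κ → IsCalabiFlow m ψ κ c T φ →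
    ∀ t₀ : ℝ, 0 < t₀ → ∃ C : ℝ, ∀ t ∈ Set.Ico t₀ T, ∀ σ z, |φ t σ z| ≤ C := by
  intro ι _ m ψ κ c T φ h1 h2 h3 h4 t₀ ht
  obtain ⟨C, hC⟩ := main_all ι m ψ κ c T φ h1 h2 h3 h4 t₀ (1 / 4) ht (by norm_num) (by norm_num)
  exact ⟨C, fun t htt σ z => (hC t htt σ).1 z⟩

end Pool.Agent.Results.MP_2cea5e_gt.PotentialC0
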