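import Pool.Agent.P.MP_2cea5e_gt.AllA

/-!
A priori `L^(1+p)` bound (`p < 1/3`) of the volume ratio along the Calabi flow on a toric surface,
finite time.
-/

namespace Pool.Agent.Results.MP_2cea5e_gt.VolumeRatioLp

open Pool.Agent.P.MP_2cea5e_gt MeasureTheory

theorem result : ∀ (ι : Type) [Finite ι] (m : ι → Matrix (Fin 2) (Fin 2) ℤ)
    (ψ : ι → (Fin 2 → ℂ) → ℝ) (κ c T : ℝ) (φ : ℝ → ι → (Fin 2 → ℂ) → ℝ),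
    IsFan m → IsToricKaehler m ψ → 0 < κ → IsCalabiFlow m ψ κ c T φ →
    ∀ t₀ p : ℝ, 0 < t₀ → 0 < p → p < 1 / 3 → ∃ C : ℝ, ∀ t ∈ Set.Ico t₀ T, ∀ σ,
      ∫⁻ z, ENNReal.ofReal ((vol (ψ σ + φ t σ) z / vol (ψ σ) z) ^ (1 + p) * vol (ψ σ) z) ≤
        ENNReal.ofReal C := by
  intro ι _ m ψ κ c T φ h1 h2 h3 h4 t₀ p ht hp hp'
  obtain ⟨C, hC⟩ := main_all ι m ψ κ c T φ h1 h2 h3 h4 t₀ p ht hp hp'
  exact ⟨C, fun t htt σ => (hC t htt σ).2⟩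

end Pool.Agent.Results.MP_2cea5e_gt.VolumeRatioLp
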